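import Pool.Agent.Y5.G.Stm
import Pool.Agent.Y248.ND.Bil

/-! Uniqueness of smooth solutions by the energy method (`S_UNI`). -/

open Set Filter Topology MeasureTheory

set_option autoImplicit false

namespace Pool.Agent.Y301.G

open Pool.Agent.Y5 Pool.Agent.Y5.D Pool.Agent.Y5.E Pool.Agent.Y5.F Pool.Agent.Y5.G
open Pool.Agent.Y248.ND (bil_anti)
open Pool.Agent.Y691.ND.F (sum_three coord_le)
open Pool.Agent.Y275.ND (finite_ball)

/-- the weight -/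
noncomputable def wt (k : Z3) : ℝ :=
  (1 + |(k 0 : ℝ)|)⁻¹ ^ 2 * ((1 + |(k 1 : ℝ)|)⁻¹ ^ 2 * (1 + |(k 2 : ℝ)|)⁻¹ ^ 2)

lemma wt_sum : Summable wt := sum_three

def Bd (M : ℝ) (V : Fam) : Prop := ∀ k, (1 + ‖vec k‖) ^ 7 * ‖V k‖ ≤ M

lemma Bd.nonneg {M : ℝ} {V : Fam} (h : Bd M V) : 0 ≤ M := le_trans (by positivity) (h 0)

lemma Bd.le {M : ℝ} {V : Fam} (h : Bd M V) (k : Z3) : ‖V k‖ ≤ M := by
  have h1 : 1 ≤ (1 + ‖vec k‖) ^ 7 := one_le_pow₀ (by linarith [norm_nonneg (vec k)])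
  calc ‖V k‖ = 1 * ‖V k‖ := (one_mul _).symm
    _ ≤ (1 + ‖vec k‖) ^ 7 * ‖V k‖ := mul_le_mul_of_nonneg_right h1 (norm_nonneg _)
    _ ≤ M := h k

lemma wt_le {M x : ℝ} (k : Z3) (hx : (1 + ‖vec k‖) ^ 6 * x ≤ M) (hM : 0 ≤ M) : x ≤ M * wt k := by
  have h0 := coord_le k 0
  have h1 := coord_le k 1
  have h2 := coord_le k 2
  have hp : 0 < (1 + ‖vec k‖) ^ 6 := by positivity
  have h4 : x ≤ M * ((1 + ‖vec k‖)⁻¹ ^ 6) := by
    rw [inv_pow, ← div_eq_mul_inv, le_div_iff₀ hp, mul_comm]; exact hx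
  refine h4.trans (mul_le_mul_of_nonneg_left ?_ hM)
  have e : (1 + ‖vec k‖)⁻¹ ^ 6 = (1 + ‖vec k‖)⁻¹ ^ 2 * ((1 + ‖vec k‖)⁻¹ ^ 2 *
      (1 + ‖vec k‖)⁻¹ ^ 2) := by
    ring
  rw [e]
  unfold wt
  gcongr

lemma Bd.pt {M : ℝ} {V : Fam} (h : Bd M V) (k : Z3) : ‖vec k‖ * ‖V k‖ ≤ M * wt k := by
  refine wt_le k ?_ h.nonneg
  calc (1 + ‖vec k‖) ^ 6 * (‖vec k‖ * ‖V k‖) ≤ (1 + ‖vec k‖) ^ 6 * ((1 + ‖vec k‖) * ‖V k‖) := by
        gcongr
        linarith
    _ = (1 + ‖vec k‖) ^ 7 * ‖V k‖ := by ring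
    _ ≤ M := h k

lemma Bd.pt0 {M : ℝ} {V : Fam} (h : Bd M V) (k : Z3) : ‖V k‖ ≤ M * wt k := by
  refine wt_le k ?_ h.nonneg
  calc (1 + ‖vec k‖) ^ 6 * ‖V k‖ ≤ (1 + ‖vec k‖) ^ 7 * ‖V k‖ := by
        gcongr
        · linarith [norm_nonneg (vec k)]
        · norm_num
    _ ≤ M := h k

lemma Bd.sum {M : ℝ} {V : Fam} (h : Bd M V) : Summable (fun k => ‖V k‖) :=
  Summable.of_nonneg_of_le (fun _ => norm_nonneg _) h.pt0 (wt_sum.mul_left M)

lemma Bd.sum1 {M : ℝ} {V : Fam} (h : Bd M V) : Summable (fun k => ‖vec k‖ * ‖V k‖) :=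
  Summable.of_nonneg_of_le (fun _ => by positivity) h.pt (wt_sum.mul_left M)

lemma Bd.tsum {M : ℝ} {V : Fam} (h : Bd M V) : ∑' k, ‖V k‖ ≤ M * ∑' k, wt k := by
  rw [← tsum_mul_left]
  exact h.sum.tsum_le_tsum h.pt0 (wt_sum.mul_left M)

lemma Bd.tsum1 {M : ℝ} {V : Fam} (h : Bd M V) : ∑' k, ‖vec k‖ * ‖V k‖ ≤ M * ∑' k, wt k := by
  rw [← tsum_mul_left]
  exact h.sum1.tsum_le_tsum h.pt (wt_sum.mul_left M)

lemma Bd.sq {M : ℝ} {V : Fam} (h : Bd M V) : Summable (fun k => ‖V k‖ ^ 2) := by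
  refine Summable.of_nonneg_of_le (fun _ => by positivity) (fun k => ?_) (h.sum.mul_left M)
  rw [pow_two]
  exact mul_le_mul_of_nonneg_right (h.le k) (norm_nonneg _)

/-- uniform bounds -/
lemma exBd {T T' : ℝ} {I : Type} {e : I → Fam} {lam : I → ℝ} {V : ℝ → Fam}
    (h : CSol e lam T V) (hT : T' < T) : ∃ M, ∀ t ∈ Icc 0 T', Bd M (V t) := by
  obtain ⟨M0, h0⟩ := h.rap 0 T' hT
  obtain ⟨Mn, hn⟩ := h.rap 7 T' hT
  refine ⟨2 ^ 7 * (M0 + Mn), fun t ht k => ?_⟩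
  have h1 : (1 + ‖vec k‖) ^ 7 ≤ 2 ^ 7 * (1 + ‖vec k‖ ^ 7) := by
    rcases le_total ‖vec k‖ 1 with h | h
    · calc (1 + ‖vec k‖) ^ 7 ≤ 2 ^ 7 := by
            gcongr; linarith
        _ ≤ 2 ^ 7 * (1 + ‖vec k‖ ^ 7) := le_mul_of_one_le_right (by positivity) (by
            have : 0 ≤ ‖vec k‖ ^ 7 := by positivity
            linarith)
    · calc (1 + ‖vec k‖) ^ 7 ≤ (2 * ‖vec k‖) ^ 7 := by
            gcongr; linarith
        _ = 2 ^ 7 * ‖vec k‖ ^ 7 := mul_pow _ _ _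
        _ ≤ 2 ^ 7 * (1 + ‖vec k‖ ^ 7) := by gcongr; linarith
  calc (1 + ‖vec k‖) ^ 7 * ‖V t k‖ ≤ 2 ^ 7 * (1 + ‖vec k‖ ^ 7) * ‖V t k‖ := by gcongr
    _ = 2 ^ 7 * (‖vec k‖ ^ 0 * ‖V t k‖ + ‖vec k‖ ^ 7 * ‖V t k‖) := by ring
    _ ≤ 2 ^ 7 * (M0 + Mn) := by gcongr <;> [exact h0 t ht k; exact hn t ht k]

/-! ### Trilinear sums -/

lemma tri_term (A B C : Fam) (MB : ℝ) (hB : ∀ k, ‖B k‖ ≤ MB) (q : Z3 × Z3) :
    ‖(inner ℝ (A q.1) (vec q.2) : ℝ) • B (q.2 - q.1)‖ * ‖C q.2‖ ≤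
      MB * (‖A q.1‖ * (‖vec q.2‖ * ‖C q.2‖)) := by
  rw [norm_smul]
  have h1 : ‖(inner ℝ (A q.1) (vec q.2) : ℝ)‖ ≤ ‖A q.1‖ * ‖vec q.2‖ := norm_inner_le_norm _ _
  have h2 := hB (q.2 - q.1)
  calc ‖(inner ℝ (A q.1) (vec q.2) : ℝ)‖ * ‖B (q.2 - q.1)‖ * ‖C q.2‖
      ≤ (‖A q.1‖ * ‖vec q.2‖) * MB * ‖C q.2‖ := by gcongr
    _ = MB * (‖A q.1‖ * (‖vec q.2‖ * ‖C q.2‖)) := by ring

lemma tri_sum {A B C : Fam} {MB : ℝ} (hB : ∀ k, ‖B k‖ ≤ MB) (hA : Summable (fun k => ‖A k‖))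
    (hC : Summable (fun k => ‖vec k‖ * ‖C k‖)) :
    Summable (fun q : Z3 × Z3 => ‖(inner ℝ (A q.1) (vec q.2) : ℝ) • B (q.2 - q.1)‖ * ‖C q.2‖) :=
  Summable.of_nonneg_of_le (fun _ => by positivity) (fun q => tri_term A B C MB hB q)
    ((hA.mul_of_nonneg hC (fun _ => norm_nonneg _) (fun _ => by positivity)).mul_left MB)

lemma tri_tsum {A B C : Fam} {MB : ℝ} (hB : ∀ k, ‖B k‖ ≤ MB) (hA : Summable (fun k => ‖A k‖))
    (hC : Summable (fun k => ‖vec k‖ * ‖C k‖)) :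
    ∑' q : Z3 × Z3, ‖(inner ℝ (A q.1) (vec q.2) : ℝ) • B (q.2 - q.1)‖ * ‖C q.2‖ ≤
      MB * ((∑' k, ‖A k‖) * ∑' k, ‖vec k‖ * ‖C k‖) := by
  have h1 := hA.mul_of_nonneg hC (fun _ => norm_nonneg _) (fun _ => by positivity)
  rw [hA.tsum_mul_tsum hC h1, ← tsum_mul_left]
  exact (tri_sum hB hA hC).tsum_le_tsum (fun q => tri_term A B C MB hB q) (h1.mul_left MB)

lemma bil_term_sum {A B C : Fam} {MB : ℝ} (hB : ∀ k, ‖B k‖ ≤ MB) (hA : Summable (fun k => ‖A k‖))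
    (hC : Summable (fun k => ‖vec k‖ * ‖C k‖)) :
    Summable (fun q : Z3 × Z3 => inner ℝ (A q.1) (vec q.2) * inner ℝ (B (q.2 - q.1)) (C q.2)) := by
  refine Summable.of_norm_bounded (tri_sum hB hA hC) (fun q => ?_)
  rw [norm_mul, norm_smul, mul_assoc]
  gcongr
  exact norm_inner_le_norm _ _

/-- a bound for the trilinear form -/
lemma bil_le {A B C : Fam} {MB : ℝ} (hB : ∀ k, ‖B k‖ ≤ MB) (hA : Summable (fun k => ‖A k‖))
    (hC : Summable (fun k => ‖vec k‖ * ‖C k‖)) :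
    |bil A B C| ≤ 2 * Real.pi * (MB * ((∑' k, ‖A k‖) * ∑' k, ‖vec k‖ * ‖C k‖)) := by
  unfold bil
  rw [abs_mul, abs_neg, abs_of_pos Real.two_pi_pos]
  refine mul_le_mul_of_nonneg_left ?_ Real.two_pi_pos.le
  refine le_trans ?_ (tri_tsum hB hA hC)
  rw [← Real.norm_eq_abs]
  refine (norm_tsum_le_tsum_norm (bil_term_sum hB hA hC).norm).trans ?_
  refine (bil_term_sum hB hA hC).norm.tsum_le_tsum (fun q => ?_) (tri_sum hB hA hC)
  rw [norm_mul, norm_smul, mul_assoc]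
  gcongr
  exact norm_inner_le_norm _ _

/-- the difference of the nonlinearities -/
lemma bil_diff {V W : Fam} {M N : ℝ} (hV : Bd M V) (hW : Bd N W) :
    bil V V (fun k => V k - W k) - bil W W (fun k => V k - W k) =
      bil (fun k => V k - W k) V (fun k => V k - W k) +
      bil W (fun k => V k - W k) (fun k => V k - W k) := by
  have hZ1 : Summable (fun k => ‖vec k‖ * ‖V k - W k‖) := by
    refine Summable.of_nonneg_of_le (fun _ => by positivity) (fun k => ?_) (hV.sum1.add hW.sum1)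
    rw [← mul_add]
    exact mul_le_mul_of_nonneg_left (norm_sub_le _ _) (norm_nonneg _)
  have hZ0 : Summable (fun k => ‖V k - W k‖) :=
    Summable.of_nonneg_of_le (fun _ => by positivity) (fun k => norm_sub_le _ _) (hV.sum.add hW.sum)
  have hZb : ∀ k, ‖V k - W k‖ ≤ M + N := fun k => (norm_sub_le _ _).trans (add_le_add (hV.le k) (hW.le k))
  have s1 := bil_term_sum (A := V) (B := V) (C := fun k => V k - W k) hV.le hV.sum hZ1
  have s2 := bil_term_sum (A := W) (B := W) (C := fun k => V k - W k) hW.le hW.sum hZ1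
  have s3 := bil_term_sum (A := fun k => V k - W k) (B := V) (C := fun k => V k - W k) hV.le hZ0 hZ1
  have s4 := bil_term_sum (A := W) (B := fun k => V k - W k) (C := fun k => V k - W k) hZb hW.sum hZ1
  unfold bil
  rw [← mul_sub, ← mul_add, ← s1.tsum_sub s2, ← s3.tsum_add s4]
  congr 1
  refine tsum_congr (fun q => ?_)
  rw [inner_sub_left, inner_sub_left]
  ring

/-- the estimate of the nonlinear term by the energy -/
lemma bil_energy {Z V : Fam} {M N : ℝ} (hZ : Bd N Z) (hV : Bd M V) :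
    |bil Z Z V| ≤ 2 * Real.pi * ((∑' k, ‖vec k‖ * ‖V k‖) * ∑' k, ‖Z k‖ ^ 2) := by
  have s := bil_term_sum (A := Z) (B := Z) (C := V) hZ.le hZ.sum hV.sum1
  unfold bil
  rw [abs_mul, abs_neg, abs_of_pos Real.two_pi_pos]
  refine mul_le_mul_of_nonneg_left ?_ Real.two_pi_pos.le
  rw [← Real.norm_eq_abs]
  refine (norm_tsum_le_tsum_norm s.norm).trans ?_
  have hg : ∀ q : Z3 × Z3, ‖inner ℝ (Z q.1) (vec q.2) * inner ℝ (Z (q.2 - q.1)) (V q.2)‖ ≤
      (‖Z q.1‖ ^ 2 / 2) * (‖vec q.2‖ * ‖V q.2‖) +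
      (‖Z (q.2 - q.1)‖ ^ 2 / 2) * (‖vec q.2‖ * ‖V q.2‖) := by
    intro q
    rw [norm_mul]
    have h1 : ‖(inner ℝ (Z q.1) (vec q.2) : ℝ)‖ ≤ ‖Z q.1‖ * ‖vec q.2‖ := norm_inner_le_norm _ _
    have h2 : ‖(inner ℝ (Z (q.2 - q.1)) (V q.2) : ℝ)‖ ≤ ‖Z (q.2 - q.1)‖ * ‖V q.2‖ :=
      norm_inner_le_norm _ _
    have h3 : ‖Z q.1‖ * ‖Z (q.2 - q.1)‖ ≤ ‖Z q.1‖ ^ 2 / 2 + ‖Z (q.2 - q.1)‖ ^ 2 / 2 := by
      nlinarith [sq_nonneg (‖Z q.1‖ - ‖Z (q.2 - q.1)‖)]
    calc _ ≤ (‖Z q.1‖ * ‖vec q.2‖) * (‖Z (q.2 - q.1)‖ * ‖V q.2‖) := by gcongr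
      _ = (‖Z q.1‖ * ‖Z (q.2 - q.1)‖) * (‖vec q.2‖ * ‖V q.2‖) := by ring
      _ ≤ (‖Z q.1‖ ^ 2 / 2 + ‖Z (q.2 - q.1)‖ ^ 2 / 2) * (‖vec q.2‖ * ‖V q.2‖) := by gcongr
      _ = _ := by ring
  have hp : Summable (fun q : Z3 × Z3 => (‖Z q.1‖ ^ 2 / 2) * (‖vec q.2‖ * ‖V q.2‖)) :=
    (hZ.sq.div_const 2).mul_of_nonneg hV.sum1 (fun _ => by positivity) (fun _ => by positivity)
  -- the shift
  let σ : Z3 × Z3 ≃ Z3 × Z3 :=
    { toFun := fun q => (q.2 - q.1, q.2)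
      invFun := fun q => (q.2 - q.1, q.2)
      left_inv := fun q => by ext <;> simp
      right_inv := fun q => by ext <;> simp }
  have hp2 : Summable (fun q : Z3 × Z3 => (‖Z (q.2 - q.1)‖ ^ 2 / 2) * (‖vec q.2‖ * ‖V q.2‖)) :=
    (σ.summable_iff (f := fun q : Z3 × Z3 => (‖Z q.1‖ ^ 2 / 2) * (‖vec q.2‖ * ‖V q.2‖))).2 hp
  have ht : ∑' q : Z3 × Z3, (‖Z (q.2 - q.1)‖ ^ 2 / 2) * (‖vec q.2‖ * ‖V q.2‖) =
      ∑' q : Z3 × Z3, (‖Z q.1‖ ^ 2 / 2) * (‖vec q.2‖ * ‖V q.2‖) :=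
    σ.tsum_eq (fun q : Z3 × Z3 => (‖Z q.1‖ ^ 2 / 2) * (‖vec q.2‖ * ‖V q.2‖))
  refine (s.norm.tsum_le_tsum hg (hp.add hp2)).trans ?_
  rw [hp.tsum_add hp2, ht, ← (hZ.sq.div_const 2).tsum_mul_tsum hV.sum1 hp, tsum_div_const]
  apply le_of_eq
  ring

/-! ### The orthonormal system -/

section OBs
variable {I : Type} {F : I → ℝ} {e : I → Fam}

lemma e_sum (h : OB F e) (a : I) : Summable (fun k => ‖e a k‖) := by
  apply summable_of_hasFiniteSupport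
  refine (finite_ball (F a)).subset ?_
  intro k hk
  simp only [Function.mem_support, ne_eq, norm_eq_zero] at hk
  exact (h.fsupp a k hk).2

lemma e_vec (h : OB F e) (a : I) (k : Z3) : ‖vec k‖ * ‖e a k‖ ≤ F a * ‖e a k‖ := by
  by_cases hk : e a k = 0
  · simp [hk]
  · exact mul_le_mul_of_nonneg_right (h.fsupp a k hk).2 (norm_nonneg _)

lemma e_sum1 (h : OB F e) (a : I) : Summable (fun k => ‖vec k‖ * ‖e a k‖) :=
  Summable.of_nonneg_of_le (fun _ => by positivity) (e_vec h a) ((e_sum h a).mul_left _)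

lemma e_tsum1 (h : OB F e) (a : I) : ∑' k, ‖vec k‖ * ‖e a k‖ ≤ F a ^ 2 := by
  refine ((e_sum1 h a).tsum_le_tsum (e_vec h a) ((e_sum h a).mul_left _)).trans ?_
  rw [tsum_mul_left, pow_two]
  exact mul_le_mul_of_nonneg_left (h.l1 a) (by linarith [h.F1 a])

lemma pair_sum (h : OB F e) (a : I) {Z : Fam} {M : ℝ} (hZ : ∀ k, ‖Z k‖ ≤ M) :
    Summable (fun k => (inner ℝ (Z k) (e a k) : ℝ)) := by
  refine Summable.of_norm_bounded ((e_sum h a).mul_left M) (fun k => ?_)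
  exact (norm_inner_le_norm _ _).trans (mul_le_mul_of_nonneg_right (hZ k) (norm_nonneg _))

lemma pair_sub (h : OB F e) (a : I) {V W : Fam} {M N : ℝ} (hV : Bd M V) (hW : Bd N W) :
    pair (fun k => V k - W k) (e a) = pair V (e a) - pair W (e a) := by
  unfold pair
  rw [← (pair_sum h a hV.le).tsum_sub (pair_sum h a hW.le)]
  exact tsum_congr (fun k => inner_sub_left _ _ _)

/-- decay of the coefficients -/
lemma dec (h : OB F e) {D : ℝ} (hD : 0 < D) (hc : ∀ a k, e a k ≠ 0 → F a ≤ D * ‖vec k‖ ^ 12)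
    (m : ℕ) {Z : Fam} {M : ℝ} (hb : Summable (fun k => (‖Z k‖ : ℝ)))
    (hZ : ∀ k, ‖vec k‖ ^ (12 * (m + 1)) * ‖Z k‖ ≤ M) (a : I) :
    F a ^ m * |pair Z (e a)| ≤ M * D ^ (m + 1) := by
  have hF : 0 < F a := by linarith [h.F1 a]
  have hM : 0 ≤ M := le_trans (by positivity) (hZ 0)
  have hbd : ∀ k, ‖Z k‖ ≤ ∑' l, ‖Z l‖ := fun k => hb.le_tsum k (fun _ _ => norm_nonneg _)
  have hs := (pair_sum h a hbd).norm
  have h1 : |pair Z (e a)| ≤ ∑' k, ‖(inner ℝ (Z k) (e a k) : ℝ)‖ := by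
    unfold pair
    rw [← Real.norm_eq_abs]
    exact norm_tsum_le_tsum_norm hs
  have h2 : ∀ k, F a ^ (m + 1) * ‖(inner ℝ (Z k) (e a k) : ℝ)‖ ≤ M * D ^ (m + 1) * ‖e a k‖ := by
    intro k
    by_cases hk : e a k = 0
    · simp [hk]
    · have h3 := hc a k hk
      have h4 : F a ^ (m + 1) ≤ D ^ (m + 1) * ‖vec k‖ ^ (12 * (m + 1)) := by
        calc F a ^ (m + 1) ≤ (D * ‖vec k‖ ^ 12) ^ (m + 1) := by gcongr
          _ = _ := by rw [mul_pow, ← pow_mul]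
      calc F a ^ (m + 1) * ‖(inner ℝ (Z k) (e a k) : ℝ)‖
          ≤ (D ^ (m + 1) * ‖vec k‖ ^ (12 * (m + 1))) * (‖Z k‖ * ‖e a k‖) := by
            gcongr
            exact norm_inner_le_norm _ _
        _ = D ^ (m + 1) * (‖vec k‖ ^ (12 * (m + 1)) * ‖Z k‖) * ‖e a k‖ := by ring
        _ ≤ D ^ (m + 1) * M * ‖e a k‖ := by
            gcongr
            exact hZ k
        _ = _ := by ring
  have h5 : F a ^ (m + 1) * |pair Z (e a)| ≤ M * D ^ (m + 1) * F a := by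
    calc F a ^ (m + 1) * |pair Z (e a)| ≤ F a ^ (m + 1) * ∑' k, ‖(inner ℝ (Z k) (e a k) : ℝ)‖ := by
          gcongr
      _ = ∑' k, F a ^ (m + 1) * ‖(inner ℝ (Z k) (e a k) : ℝ)‖ := by rw [tsum_mul_left]
      _ ≤ ∑' k, M * D ^ (m + 1) * ‖e a k‖ :=
          (hs.mul_left _).tsum_le_tsum h2 ((e_sum h a).mul_left _)
      _ = M * D ^ (m + 1) * ∑' k, ‖e a k‖ := tsum_mul_left
      _ ≤ M * D ^ (m + 1) * F a := by
          gcongr
          exact h.l1 a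
  have h6 : F a * (F a ^ m * |pair Z (e a)|) ≤ F a * (M * D ^ (m + 1)) := by
    calc F a * (F a ^ m * |pair Z (e a)|) = F a ^ (m + 1) * |pair Z (e a)| := by ring
      _ ≤ M * D ^ (m + 1) * F a := h5
      _ = _ := by ring
  exact le_of_mul_le_mul_left h6 hF

/-- summability with weights -/
lemma w_sum (h : OB F e) {b : I → ℝ} {A : ℝ} (n : ℕ) (hb : ∀ a, F a ^ (n + 15) * |b a| ≤ A) :
    (∀ a, |b a| * F a ^ n ≤ A * (1 / F a ^ 15)) ∧ Summable (fun a => |b a| * F a ^ n) := by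
  have h1 : ∀ a, |b a| * F a ^ n ≤ A * (1 / F a ^ 15) := by
    intro a
    have hF : 0 < F a := by linarith [h.F1 a]
    have := hb a
    rw [mul_one_div, le_div_iff₀ (by positivity)]
    calc |b a| * F a ^ n * F a ^ 15 = F a ^ (n + 15) * |b a| := by rw [pow_add]; ring
      _ ≤ A := this
  refine ⟨h1, Summable.of_nonneg_of_le (fun a => ?_) h1 (h.summ.mul_left A)⟩
  have hF : 0 < F a := by linarith [h.F1 a]
  positivity

/-- exchange of the sums -/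
lemma fub {X : Type} {b : I → ℝ} {Z : Fam} (G : X → E3) (κ : X → Z3)
    (hZ : ∀ k, HasSum (fun a => b a • e a k) (Z k)) (u : I → ℝ)
    (hu : Summable (fun a => |b a| * u a))
    (h1 : ∀ a, Summable (fun x => ‖G x‖ * ‖e a (κ x)‖))
    (h2 : ∀ a, ∑' x, ‖G x‖ * ‖e a (κ x)‖ ≤ u a) :
    ∑' x, (inner ℝ (G x) (Z (κ x)) : ℝ) = ∑' a, b a * ∑' x, (inner ℝ (G x) (e a (κ x)) : ℝ) := by
  have hs0 : Summable (fun p : I × X => |b p.1| * (‖G p.2‖ * ‖e p.1 (κ p.2)‖)) := by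
    have hnn : (0 : I × X → ℝ) ≤ fun p : I × X => |b p.1| * (‖G p.2‖ * ‖e p.1 (κ p.2)‖) :=
      fun p => mul_nonneg (abs_nonneg _) (mul_nonneg (norm_nonneg _) (norm_nonneg _))
    have hA : ∀ a : I, Summable (fun x : X => |b a| * (‖G x‖ * ‖e a (κ x)‖)) :=
      fun a => (h1 a).mul_left _
    have hB : ∀ a : I, ∑' x : X, |b a| * (‖G x‖ * ‖e a (κ x)‖) ≤ |b a| * u a := fun a => by
      rw [tsum_mul_left]
      exact mul_le_mul_of_nonneg_left (h2 a) (abs_nonneg _)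
    have hC : Summable (fun a : I => ∑' x : X, |b a| * (‖G x‖ * ‖e a (κ x)‖)) :=
      Summable.of_nonneg_of_le (fun a => tsum_nonneg (fun x =>
        mul_nonneg (abs_nonneg _) (mul_nonneg (norm_nonneg _) (norm_nonneg _)))) hB hu
    exact (summable_prod_of_nonneg hnn).2 ⟨hA, hC⟩
  have hs : Summable (Function.uncurry fun (a : I) (x : X) =>
      b a * (inner ℝ (G x) (e a (κ x)) : ℝ)) := by
    refine Summable.of_norm_bounded hs0 (fun p => ?_)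
    simp only [Function.uncurry]
    rw [norm_mul, Real.norm_eq_abs (b p.1)]
    gcongr
    exact norm_inner_le_norm _ _
  have h3 : ∀ x : X, (inner ℝ (G x) (Z (κ x)) : ℝ) =
      ∑' a, b a * (inner ℝ (G x) (e a (κ x)) : ℝ) := by
    intro x
    have h4 := (innerSL ℝ (G x)).hasSum (hZ (κ x))
    simp only [innerSL_apply_apply, inner_smul_right] at h4
    exact h4.tsum_eq.symm
  rw [tsum_congr h3, hs.tsum_comm]
  exact tsum_congr (fun a => tsum_mul_left)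

/-- Parseval -/
lemma pars (h : OB F e) {Z : Fam} {M : ℝ} (hB : Bd M Z)
    (hZ : ∀ k, HasSum (fun a => pair Z (e a) • e a k) (Z k))
    (hu : Summable (fun a => |pair Z (e a)| * F a)) :
    ∑' k, ‖Z k‖ ^ 2 = ∑' a, pair Z (e a) ^ 2 := by
  have h1 : ∀ a, Summable (fun k => ‖Z k‖ * ‖e a k‖) := fun a =>
    Summable.of_nonneg_of_le (fun _ => by positivity)
      (fun k => mul_le_mul_of_nonneg_right (hB.le k) (norm_nonneg _)) ((e_sum h a).mul_left M)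
  have h2 : ∀ a, ∑' k, ‖Z k‖ * ‖e a k‖ ≤ M * F a := fun a => by
    refine ((h1 a).tsum_le_tsum
      (fun k => mul_le_mul_of_nonneg_right (hB.le k) (norm_nonneg _)) ((e_sum h a).mul_left M)).trans ?_
    rw [tsum_mul_left]
    exact mul_le_mul_of_nonneg_left (h.l1 a) hB.nonneg
  have h3 := fub (e := e) (b := fun a => pair Z (e a)) Z id hZ (fun a => M * F a)
    (by
      refine (hu.mul_left M).congr (fun a => ?_)
      ring) h1 h2
  simp only [id] at h3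
  calc ∑' k, ‖Z k‖ ^ 2 = ∑' k, (inner ℝ (Z k) (Z k) : ℝ) :=
        tsum_congr (fun k => (real_inner_self_eq_norm_sq _).symm)
    _ = _ := h3
    _ = _ := tsum_congr (fun a => by
      change pair Z (e a) * pair Z (e a) = _
      ring)

/-- expansion of the trilinear form -/
lemma bil_exp (h : OB F e) {V Z : Fam} {M : ℝ} (hV : Bd M V)
    (hZ : ∀ k, HasSum (fun a => pair Z (e a) • e a k) (Z k))
    (hu : Summable (fun a => |pair Z (e a)| * F a ^ 2)) :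
    bil V V Z = ∑' a, pair Z (e a) * bil V V (e a) := by
  have h1 : ∀ a, Summable (fun q : Z3 × Z3 =>
      ‖(inner ℝ (V q.1) (vec q.2) : ℝ) • V (q.2 - q.1)‖ * ‖e a q.2‖) :=
    fun a => tri_sum hV.le hV.sum (e_sum1 h a)
  have h2 : ∀ a, ∑' q : Z3 × Z3, ‖(inner ℝ (V q.1) (vec q.2) : ℝ) • V (q.2 - q.1)‖ * ‖e a q.2‖ ≤
      M * ((∑' k, ‖V k‖) * F a ^ 2) := fun a => by
    refine (tri_tsum hV.le hV.sum (e_sum1 h a)).trans ?_
    have := e_tsum1 h a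
    have h0 : 0 ≤ ∑' k, ‖V k‖ := tsum_nonneg (fun _ => norm_nonneg _)
    exact mul_le_mul_of_nonneg_left (mul_le_mul_of_nonneg_left this h0) hV.nonneg
  have h3 := fub (e := e) (b := fun a => pair Z (e a)) (X := Z3 × Z3)
    (fun q => (inner ℝ (V q.1) (vec q.2) : ℝ) • V (q.2 - q.1)) (fun q => q.2) hZ
    (fun a => M * ((∑' k, ‖V k‖) * F a ^ 2))
    (by
      refine (hu.mul_left (M * ∑' k, ‖V k‖)).congr (fun a => ?_)
      ring) h1 h2
  simp only [inner_smul_left, conj_trivial] at h3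
  unfold bil
  rw [h3, ← tsum_mul_left]
  exact tsum_congr (fun a => by ring)

end OBs

theorem t_UNI : S_UNI := by
  intro I F e lam h hlam hDq T V W hV hW h0 t₀ ht₀
  obtain ⟨D₁, q, hDq⟩ := hDq
  obtain ⟨D, hD, hc⟩ := h.cmp
  obtain ⟨T', hT0, hT'⟩ : ∃ T', t₀ < T' ∧ T' < T := exists_between ht₀.2
  have h0T' : 0 < T' := lt_of_le_of_lt ht₀.1 hT0
  obtain ⟨MV, hMV⟩ := exBd hV hT'
  obtain ⟨MW, hMW⟩ := exBd hW hT'
  have hIco : ∀ t ∈ Icc 0 T', t ∈ Ico 0 T := fun t ht => ⟨ht.1, lt_of_le_of_lt ht.2 hT'⟩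
  have hF0 : ∀ a, 0 < F a := fun a => by linarith [h.F1 a]
  -- the difference
  have hZ : ∀ t ∈ Icc 0 T', Bd (MV + MW) (fun k => V t k - W t k) := fun t ht k => by
    calc (1 + ‖vec k‖) ^ 7 * ‖V t k - W t k‖ ≤ (1 + ‖vec k‖) ^ 7 * (‖V t k‖ + ‖W t k‖) := by
          gcongr
          exact norm_sub_le _ _
      _ = (1 + ‖vec k‖) ^ 7 * ‖V t k‖ + (1 + ‖vec k‖) ^ 7 * ‖W t k‖ := by ring
      _ ≤ _ := add_le_add (hMV t ht k) (hMW t ht k)
  have hrap : ∀ m : ℕ, ∃ M, ∀ t ∈ Icc 0 T', ∀ k, ‖vec k‖ ^ m * ‖V t k - W t k‖ ≤ M := fun m => by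
    obtain ⟨M1, h1⟩ := hV.rap m T' hT'
    obtain ⟨M2, h2⟩ := hW.rap m T' hT'
    refine ⟨M1 + M2, fun t ht k => ?_⟩
    calc ‖vec k‖ ^ m * ‖V t k - W t k‖ ≤ ‖vec k‖ ^ m * (‖V t k‖ + ‖W t k‖) := by
          gcongr
          exact norm_sub_le _ _
      _ = ‖vec k‖ ^ m * ‖V t k‖ + ‖vec k‖ ^ m * ‖W t k‖ := by ring
      _ ≤ _ := add_le_add (h1 t ht k) (h2 t ht k)
  have hot : ∀ t ∈ Icc 0 T', OT (fun k => V t k - W t k) := fun t ht => by
    have o1 := hV.ot t (hIco t ht)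
    have o2 := hW.ot t (hIco t ht)
    refine ⟨fun k => ?_, fun k => ?_⟩
    · rw [o1.odd, o2.odd]
      abel
    · rw [inner_sub_right, o1.tan, o2.tan, sub_zero]
  have hexp : ∀ t ∈ Icc 0 T', ∀ k, HasSum (fun a => pair (fun k => V t k - W t k) (e a) • e a k)
      (V t k - W t k) := fun t ht k =>
    h.exp (fun k => V t k - W t k) (hot t ht) (fun m => by
      obtain ⟨M, hM⟩ := hrap m
      exact ⟨M, fun k => hM t ht k⟩) k
  -- the coefficients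
  obtain ⟨b, hb⟩ : ∃ b : I → ℝ → ℝ, ∀ a t, b a t = pair (V t) (e a) - pair (W t) (e a) :=
    ⟨fun a t => pair (V t) (e a) - pair (W t) (e a), fun a t => rfl⟩
  have hbZ : ∀ t ∈ Icc 0 T', ∀ a, pair (fun k => V t k - W t k) (e a) = b a t := fun t ht a => by
    rw [hb]
    exact pair_sub h a (hMV t ht) (hMW t ht)
  have hdec : ∀ n : ℕ, ∃ A, 0 ≤ A ∧ ∀ t ∈ Icc 0 T', ∀ a, F a ^ (n + 15) * |b a t| ≤ A := by
    intro n
    obtain ⟨M, hM⟩ := hrap (12 * (n + 15 + 1))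
    have hM0 : 0 ≤ M := le_trans (by positivity) (hM 0 ⟨le_rfl, h0T'.le⟩ 0)
    refine ⟨M * D ^ (n + 15 + 1), by positivity, fun t ht a => ?_⟩
    rw [← hbZ t ht a]
    exact dec h hD hc (n + 15) (hZ t ht).sum (hM t ht) a
  obtain ⟨A0, hA0, hdec0⟩ := hdec 0
  obtain ⟨A1, hA1, hdec1⟩ := hdec 1
  obtain ⟨A2, hA2, hdec2⟩ := hdec 2
  obtain ⟨Aq, hAq, hdecq⟩ := hdec q
  have hb0 : ∀ t ∈ Icc 0 T', ∀ a, |b a t| ≤ A0 * (1 / F a ^ 15) := fun t ht a => by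
    have := (w_sum h 0 (hdec0 t ht)).1 a
    simpa using this
  have hb0' : ∀ t ∈ Icc 0 T', ∀ a, |b a t| ≤ A0 := fun t ht a => by
    refine (hb0 t ht a).trans ?_
    have h1 : 1 / F a ^ 15 ≤ 1 := by
      rw [div_le_one (pow_pos (hF0 a) 15)]
      exact one_le_pow₀ (h.F1 a)
    calc A0 * (1 / F a ^ 15) ≤ A0 * 1 := by gcongr
      _ = A0 := mul_one _
  -- bounds for the nonlinearity
  obtain ⟨CV, hCV0, hCV⟩ : ∃ C, 0 ≤ C ∧ ∀ t ∈ Icc 0 T', ∀ a, |bil (V t) (V t) (e a)| ≤ C * F a ^ 2 := by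
    have hMV0 := (hMV 0 ⟨le_rfl, h0T'.le⟩).nonneg
    have hw0 : 0 ≤ ∑' k, wt k := tsum_nonneg (fun k => by unfold wt; positivity)
    refine ⟨2 * Real.pi * (MV * (MV * ∑' k, wt k)), by positivity, fun t ht a => ?_⟩
    have hB := hMV t ht
    refine (bil_le hB.le hB.sum (e_sum1 h a)).trans ?_
    have h1 : (∑' k, ‖V t k‖) * ∑' k, ‖vec k‖ * ‖e a k‖ ≤ (MV * ∑' k, wt k) * F a ^ 2 :=
      mul_le_mul hB.tsum (e_tsum1 h a) (tsum_nonneg (fun _ => by positivity)) (by positivity)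
    calc 2 * Real.pi * (MV * ((∑' k, ‖V t k‖) * ∑' k, ‖vec k‖ * ‖e a k‖))
        ≤ 2 * Real.pi * (MV * ((MV * ∑' k, wt k) * F a ^ 2)) := by gcongr
      _ = _ := by ring
  obtain ⟨CW, hCW0, hCW⟩ : ∃ C, 0 ≤ C ∧ ∀ t ∈ Icc 0 T', ∀ a, |bil (W t) (W t) (e a)| ≤ C * F a ^ 2 := by
    have hMV0 := (hMW 0 ⟨le_rfl, h0T'.le⟩).nonneg
    have hw0 : 0 ≤ ∑' k, wt k := tsum_nonneg (fun k => by unfold wt; positivity)
    refine ⟨2 * Real.pi * (MW * (MW * ∑' k, wt k)), by positivity, fun t ht a => ?_⟩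
    have hB := hMW t ht
    refine (bil_le hB.le hB.sum (e_sum1 h a)).trans ?_
    have h1 : (∑' k, ‖W t k‖) * ∑' k, ‖vec k‖ * ‖e a k‖ ≤ (MW * ∑' k, wt k) * F a ^ 2 :=
      mul_le_mul hB.tsum (e_tsum1 h a) (tsum_nonneg (fun _ => by positivity)) (by positivity)
    calc 2 * Real.pi * (MW * ((∑' k, ‖W t k‖) * ∑' k, ‖vec k‖ * ‖e a k‖))
        ≤ 2 * Real.pi * (MW * ((MW * ∑' k, wt k) * F a ^ 2)) := by gcongr
      _ = _ := by ring
  -- the derivative of the coefficients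
  obtain ⟨d, hd⟩ : ∃ d : I → ℝ → ℝ, ∀ a t, d a t = -(lam a * b a t) +
      (bil (V t) (V t) (e a) - bil (W t) (W t) (e a)) := ⟨_, fun a t => rfl⟩
  have hder : ∀ a, ∀ t ∈ Ico 0 T, HasDerivWithinAt (b a) (d a t) (Ico 0 T) t := fun a t ht => by
    have h1 := (hV.eqn a t ht).sub (hW.eqn a t ht)
    have h2 : (fun τ => pair (V τ) (e a)) - (fun τ => pair (W τ) (e a)) = b a := by
      funext τ
      simp only [Pi.sub_apply]
      rw [hb]
    have h3 : -(lam a * pair (V t) (e a)) + bil (V t) (V t) (e a) -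
        (-(lam a * pair (W t) (e a)) + bil (W t) (W t) (e a)) = d a t := by
      rw [hd, hb]
      ring
    rw [h2, h3] at h1
    exact h1
  have hder' : ∀ a, ∀ t ∈ Ioo 0 T', HasDerivAt (b a) (d a t) t := fun a t ht =>
    (hder a t ⟨ht.1.le, ht.2.trans hT'⟩).hasDerivAt
      (Ico_mem_nhds ht.1 (ht.2.trans hT'))
  -- the bounds
  have hdb : ∀ t ∈ Icc 0 T', ∀ a, ‖2 * b a t * d a t‖ ≤
      (2 * (|D₁| * A0 * Aq + (CV + CW) * A2)) * (1 / F a ^ 15) := fun t ht a => by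
    have h1 := (w_sum h q (hdecq t ht)).1 a
    have h2 := (w_sum h 2 (hdec2 t ht)).1 a
    have hFa := hF0 a
    have h3 : |d a t| ≤ |D₁| * F a ^ q * A0 + (CV + CW) * F a ^ 2 := by
      rw [hd]
      have h4 : |-(lam a * b a t)| ≤ |D₁| * F a ^ q * A0 := by
        rw [abs_neg, abs_mul, abs_of_nonneg (hlam a)]
        have h5 : lam a ≤ |D₁| * F a ^ q := (hDq a).trans (by gcongr; exact le_abs_self _)
        exact mul_le_mul h5 (hb0' t ht a) (abs_nonneg _) (by positivity)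
      have h6 := hCV t ht a
      have h7 := hCW t ht a
      calc |-(lam a * b a t) + (bil (V t) (V t) (e a) - bil (W t) (W t) (e a))|
          ≤ |-(lam a * b a t)| + (|bil (V t) (V t) (e a)| + |bil (W t) (W t) (e a)|) :=
            (abs_add_le _ _).trans (add_le_add le_rfl (abs_sub _ _))
        _ ≤ |D₁| * F a ^ q * A0 + (CV * F a ^ 2 + CW * F a ^ 2) := by gcongr
        _ = _ := by ring
    rw [Real.norm_eq_abs, abs_mul, abs_mul, abs_two]
    calc 2 * |b a t| * |d a t| ≤ 2 * |b a t| * (|D₁| * F a ^ q * A0 + (CV + CW) * F a ^ 2) := by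
          gcongr
      _ = 2 * (|D₁| * A0 * (|b a t| * F a ^ q) + (CV + CW) * (|b a t| * F a ^ 2)) := by ring
      _ ≤ 2 * (|D₁| * A0 * (Aq * (1 / F a ^ 15)) + (CV + CW) * (A2 * (1 / F a ^ 15))) := by gcongr
      _ = _ := by ring
  have hsqb : ∀ t ∈ Icc 0 T', ∀ a, ‖b a t ^ 2‖ ≤ (A0 * A0) * (1 / F a ^ 15) := fun t ht a => by
    rw [norm_pow, Real.norm_eq_abs, pow_two]
    calc |b a t| * |b a t| ≤ A0 * (A0 * (1 / F a ^ 15)) :=
          mul_le_mul (hb0' t ht a) (hb0 t ht a) (abs_nonneg _) hA0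
      _ = _ := by ring
  have hsq : ∀ t ∈ Icc 0 T', Summable (fun a => b a t ^ 2) := fun t ht =>
    Summable.of_norm_bounded (h.summ.mul_left (A0 * A0)) (hsqb t ht)
  -- the energy
  have hcont : ContinuousOn (fun t => ∑' a, b a t ^ 2) (Icc 0 T') := by
    refine continuousOn_tsum (fun a => ?_) (h.summ.mul_left (A0 * A0)) (fun a t ht => hsqb t ht a)
    exact ContinuousOn.pow (fun t ht =>
      ((hder a t (hIco t ht)).continuousWithinAt).mono (fun s hs => hIco s hs)) 2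
  have hE : ∀ t ∈ Ioo 0 T', HasDerivAt (fun t => ∑' a, b a t ^ 2) (∑' a, 2 * b a t * d a t) t := by
    intro t ht
    refine hasDerivAt_tsum_of_isPreconnected (u := fun a =>
      (2 * (|D₁| * A0 * Aq + (CV + CW) * A2)) * (1 / F a ^ 15)) (t := Ioo 0 T') (y₀ := t)
      (h.summ.mul_left _) isOpen_Ioo isPreconnected_Ioo (fun a s hs => ?_)
      (fun a s hs => hdb s (Ioo_subset_Icc_self hs) a) ht (hsq t (Ioo_subset_Icc_self ht)) ht
    have h1 : HasDerivAt (fun t => b a t * b a t) (d a s * b a s + b a s * d a s) s :=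
      (hder' a s hs).mul (hder' a s hs)
    have h2 : (fun t => b a t ^ 2) = fun t => b a t * b a t := funext fun t => pow_two _
    have h3 : 2 * b a s * d a s = d a s * b a s + b a s * d a s := by ring
    rw [h2, h3]
    exact h1
  -- the differential inequality
  have hpars : ∀ t ∈ Icc 0 T', ∑' k, ‖V t k - W t k‖ ^ 2 = ∑' a, b a t ^ 2 := fun t ht => by
    have h1 := pars h (hZ t ht) (hexp t ht) (by
      have := (w_sum h 1 (hdec1 t ht)).2
      refine this.congr (fun a => ?_)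
      rw [hbZ t ht a, pow_one])
    rw [h1]
    exact tsum_congr (fun a => by rw [hbZ t ht a])
  have hw0 : 0 ≤ ∑' k, wt k := tsum_nonneg (fun k => by unfold wt; positivity)
  have hineq : ∀ t ∈ Icc 0 T', ∑' a, 2 * b a t * d a t ≤
      (2 * (2 * Real.pi * (MV * ∑' k, wt k))) * ∑' a, b a t ^ 2 := by
    intro t ht
    have hu2 : Summable (fun a => |pair (fun k => V t k - W t k) (e a)| * F a ^ 2) := by
      refine (w_sum h 2 (hdec2 t ht)).2.congr (fun a => ?_)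
      rw [hbZ t ht a]
    have e1 := bil_exp h (hMV t ht) (hexp t ht) hu2
    have e2 := bil_exp h (hMW t ht) (hexp t ht) hu2
    have hs1 : Summable (fun a => b a t * bil (V t) (V t) (e a)) := by
      refine Summable.of_norm_bounded ((w_sum h 2 (hdec2 t ht)).2.mul_left CV) (fun a => ?_)
      rw [norm_mul, Real.norm_eq_abs, Real.norm_eq_abs]
      calc |b a t| * |bil (V t) (V t) (e a)| ≤ |b a t| * (CV * F a ^ 2) := by
            gcongr
            exact hCV t ht a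
        _ = _ := by ring
    have hs2 : Summable (fun a => b a t * bil (W t) (W t) (e a)) := by
      refine Summable.of_norm_bounded ((w_sum h 2 (hdec2 t ht)).2.mul_left CW) (fun a => ?_)
      rw [norm_mul, Real.norm_eq_abs, Real.norm_eq_abs]
      calc |b a t| * |bil (W t) (W t) (e a)| ≤ |b a t| * (CW * F a ^ 2) := by
            gcongr
            exact hCW t ht a
        _ = _ := by ring
    have hs3 : Summable (fun a => 2 * b a t * d a t) :=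
      Summable.of_norm_bounded (h.summ.mul_left _) (hdb t ht)
    have hs4 := (hs1.sub hs2).mul_left 2
    have h1 : ∑' a, 2 * b a t * d a t ≤
        ∑' a, 2 * (b a t * bil (V t) (V t) (e a) - b a t * bil (W t) (W t) (e a)) := by
      refine hs3.tsum_le_tsum (fun a => ?_) hs4
      rw [hd]
      have := mul_nonneg (hlam a) (sq_nonneg (b a t))
      nlinarith
    have h2 : ∑' a, 2 * (b a t * bil (V t) (V t) (e a) - b a t * bil (W t) (W t) (e a)) =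
        2 * (bil (V t) (V t) (fun k => V t k - W t k) - bil (W t) (W t) (fun k => V t k - W t k)) := by
      rw [tsum_mul_left, hs1.tsum_sub hs2, e1, e2]
      congr 1
      congr 1
      · exact tsum_congr (fun a => by rw [hbZ t ht a])
      · exact tsum_congr (fun a => by rw [hbZ t ht a])
    have h3 := bil_diff (hMV t ht) (hMW t ht)
    have h4 : bil (W t) (fun k => V t k - W t k) (fun k => V t k - W t k) = 0 := by
      have := bil_anti (W t) (fun k => V t k - W t k) (fun k => V t k - W t k)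
        (hW.ot t (hIco t ht))
      linarith
    have h5 := bil_anti (fun k => V t k - W t k) (V t) (fun k => V t k - W t k) (hot t ht)
    have h6 := bil_energy (hZ t ht) (hMV t ht)
    have h7 : (∑' k, ‖vec k‖ * ‖V t k‖) * ∑' k, ‖V t k - W t k‖ ^ 2 ≤
        (MV * ∑' k, wt k) * ∑' k, ‖V t k - W t k‖ ^ 2 :=
      mul_le_mul_of_nonneg_right (hMV t ht).tsum1 (tsum_nonneg (fun _ => by positivity))
    have h8 : |bil (fun k => V t k - W t k) (fun k => V t k - W t k) (V t)| ≤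
        2 * Real.pi * ((MV * ∑' k, wt k) * ∑' k, ‖V t k - W t k‖ ^ 2) :=
      h6.trans (mul_le_mul_of_nonneg_left h7 Real.two_pi_pos.le)
    rw [hpars t ht] at h8
    have h9 := neg_abs_le (bil (fun k => V t k - W t k) (fun k => V t k - W t k) (V t))
    rw [h4, add_zero, h5] at h3
    rw [h2, h3] at h1
    calc _ ≤ _ := h1
      _ ≤ 2 * (2 * Real.pi * ((MV * ∑' k, wt k) * ∑' a, b a t ^ 2)) := by linarith
      _ = _ := by ring
  -- Gronwall
  obtain ⟨C, hC⟩ : ∃ C, C = 2 * (2 * Real.pi * (MV * ∑' k, wt k)) := ⟨_, rfl⟩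
  rw [← hC] at hineq
  have hanti : AntitoneOn (fun t => (∑' a, b a t ^ 2) * Real.exp (-C * t)) (Icc 0 T') := by
    refine antitoneOn_of_deriv_nonpos (convex_Icc 0 T')
      (hcont.mul (by fun_prop)) ?_ ?_
    · rw [interior_Icc]
      intro t ht
      exact ((hE t ht).differentiableAt.mul (by fun_prop)).differentiableWithinAt
    · rw [interior_Icc]
      intro t ht
      have h1 : HasDerivAt (fun t : ℝ => Real.exp (-C * t)) (Real.exp (-C * t) * (-C * 1)) t :=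
        ((hasDerivAt_id t).const_mul (-C)).exp
      have h2 := (hE t ht).mul h1
      have h3 : deriv (fun t => (∑' a, b a t ^ 2) * Real.exp (-C * t)) t =
          (∑' a, 2 * b a t * d a t) * Real.exp (-C * t) +
            (∑' a, b a t ^ 2) * (Real.exp (-C * t) * (-C * 1)) := h2.deriv
      rw [h3]
      have h4 := hineq t (Ioo_subset_Icc_self ht)
      have h5 := Real.exp_pos (-C * t)
      nlinarith
  have hE0 : ∑' a, b a 0 ^ 2 = 0 := by
    have : ∀ a, b a 0 ^ 2 = 0 := fun a => by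
      rw [hb]
      have : pair (V 0) (e a) = pair (W 0) (e a) := by
        unfold pair
        exact tsum_congr (fun k => by rw [h0 k])
      rw [this]
      ring
    rw [tsum_congr this, tsum_zero]
  have ht₀' : t₀ ∈ Icc 0 T' := ⟨ht₀.1, hT0.le⟩
  have hle := hanti (⟨le_rfl, h0T'.le⟩ : (0:ℝ) ∈ Icc 0 T') ht₀' ht₀.1
  simp only [hE0, zero_mul] at hle
  have hEt : ∑' a, b a t₀ ^ 2 ≤ 0 := by
    by_contra hcon
    push Not at hcon
    have := mul_pos hcon (Real.exp_pos (-C * t₀))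
    linarith
  have hbt : ∀ a, b a t₀ = 0 := fun a => by
    have h1 := (hsq t₀ ht₀').le_tsum a (fun _ _ => sq_nonneg _)
    have h2 : b a t₀ ^ 2 = 0 := le_antisymm (h1.trans hEt) (sq_nonneg _)
    exact pow_eq_zero_iff two_ne_zero |>.1 h2
  intro k
  have h1 := hexp t₀ ht₀' k
  have h2 : (fun a => pair (fun k => V t₀ k - W t₀ k) (e a) • e a k) = fun _ => 0 := by
    funext a
    rw [hbZ t₀ ht₀' a, hbt a, zero_smul]
  rw [h2] at h1
  exact sub_eq_zero.1 (h1.unique hasSum_zero)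

end Pool.Agent.Y301.G
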